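import Pool.Agent.K6.H83.FullGroup

/-!
# The topological full group of the Morse subshift has subgroups of intermediate growth

`subshift σ` is the set of bi-infinite sequences all of whose finite subwords occur in some
`σ ^ n (a)`, `n ≥ 1`; `shift σ` is the left shift on it (product topology); `fullGroup T` is the group of
the homeomorphisms `g` with `g x = T ^ (n x) x` for a continuous `n` with values in `ℤ`.
`IntermediateGrowth G` says that for every finite generating set `S` of `G` the number of the elements
of word length at most `r` is eventually larger than `r ^ d` for every `d` and eventually smaller than
`exp (c r)` for every `c > 0`; `ContainsIntermediateGrowth G` says that `G` has a finitely generated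
subgroup of intermediate growth.

The subgroup is generated by three involutions `a`, `b0`, `b1` which satisfy the wreath recursion
`a = swap`, `b0 = (b1, a)`, `b1 = (b0, 1)` with respect to the decomposition of the subshift into two copies
of itself which is given by the substitution.
-/

set_option autoImplicit false

namespace Pool.Agent.Results.MP_0e9457_al.MorseIntermediate

open Pool.Agent.K6.H83

theorem result : ContainsIntermediateGrowth (fullGroup (shift morse)) :=
  ⟨H, H_fg, intermediateGrowth_H⟩

end Pool.Agent.Results.MP_0e9457_al.MorseIntermediate
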